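import Pool.Agent.L0h59.XF.BXA
import Pool.Agent.L0h86.XF.GPX
import Pool.Agent.L0h2.P.BX1

/-!
# Project XF (helper59): the count in a box, preparations (after `Pool/Agent/L0h2/P/BX1.lean`)
-/

set_option autoImplicit false
set_option linter.unusedSectionVars false
set_option linter.unusedVariables false
set_option maxHeartbeats 4000000

open scoped Classical

namespace Pool.Agent.L0h59.XF

open Finset
open Pool.Agent.Y703.CQ (nr sg c2 S_C2)
open Pool.Agent.N973.ND (uu Gv Hyp Wk pt TT Ph Zk bf S_ALT)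
open Pool.Agent.N916.GB (HB)
open Pool.Agent.N958.GB (sgm)
open Pool.Agent.L0h1.KD (E1 am am_le am_nonneg card_E1 xe JK)
open Pool.Agent.L0h2.P (G0 G0_congr ffj ffj_congr Pat GP amp amp_nonneg amp_le tau la2 Kg PQ)
open Pool.Agent.L0h86.XF (mF ty PrF Dt tyO mO uO nO eO bO PrO RecA GRO GdO Sy SW GdS kd kW dg NdJ PatS
  amc GhX card_GPX)

theorem amc_eq {t : ℕ} (β : Fin t → Bool) : amc β = Pool.Agent.L0h2.P.amc β := rfl

theorem amp_amc (hC2 : S_C2) {t V : ℕ} {m : Fin t → ℕ} (hV : ∀ l, V ≤ m l) (pat : Fin t → Bool) :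
    |amp pat m - amc pat| ≤ t * (1 / 2 : ℝ) ^ V :=
  Pool.Agent.L0h2.P.amp_amc hC2 hV pat

section
variable {ι : Type} [Fintype ι] [LinearOrder ι]

theorem JKX_eq (τ : Bool → ι → ℕ) : JKX τ = JK (τ false) ∪ JK (τ true) := by
  ext i
  unfold JKX JK
  simp only [mem_filter, mem_univ, true_and, mem_union]

end

section
variable {t : ℕ} {s : Fin t → Sy} {ι : Type} [Fintype ι] [LinearOrder ι] {S₀ : Finset ℕ}
  {τ : Bool → ι → ℕ} {β : ∀ l, ι → Lb (SW (s l) S₀)} {C : ι → Finset ℕ} {p p₀ : ι → ℕ}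

theorem SW_union (s : Sy) (p : ι → ℕ) :
    SW s (S₀ ∪ univ.image p) = SW s S₀ ∪ univ.image fun i => some (p i) := by
  unfold SW
  ext v
  simp only [mem_union, mem_image, mem_univ, true_and]
  constructor
  · rintro (⟨a, h | ⟨i, rfl⟩, rfl⟩ | h)
    · exact Or.inl (Or.inl ⟨a, h, rfl⟩)
    · exact Or.inr ⟨i, rfl⟩
    · exact Or.inl (Or.inr h)
  · rintro ((⟨a, h, rfl⟩ | h) | ⟨i, rfl⟩)
    · exact Or.inl ⟨a, Or.inl h, rfl⟩
    · exact Or.inr h
    · exact Or.inl ⟨p i, Or.inr ⟨i, rfl⟩, rfl⟩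

theorem SW_disj {s : Sy} (hdis : ∀ v ∈ S₀, some v ∉ s.W) : Disjoint (S₀.image some) s.W := by
  rw [Finset.disjoint_left]
  intro v hv hv'
  rw [mem_image] at hv
  obtain ⟨a, ha, rfl⟩ := hv
  exact hdis a ha hv'

theorem sum_SW {M : Type} [AddCommMonoid M] {s : Sy} (hdis : ∀ v ∈ S₀, some v ∉ s.W)
    (f : Option ℕ → M) :
    ∑ v : SW s S₀, f v = ∑ u ∈ S₀, f (some u) + ∑ v ∈ s.W, f v := by
  rw [Finset.sum_coe_sort (SW s S₀) f]
  unfold SW
  rw [sum_union (SW_disj hdis), sum_image fun a _ b _ h => Option.some_injective _ h]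

/-- the sizes -/
theorem card_spW {s : Sy} (ht : s.d.t < 4) (hdis : ∀ v ∈ S₀, some v ∉ s.W) {m : ℕ}
    (h : kW s + kd s.d.f S₀ + ((univ.filter fun i => τ s.d.f i = 3).card : ℤ) -
      ((univ.filter fun i => τ s.d.f i = 1).card : ℤ) = 2 * m) : Kc s.d (SW s S₀) τ m := by
  intro p hτ
  have key : ∀ x : Option ℕ, (if mO s.d x = 1 then (1 : ℤ) else 0) -
      (if tyO s.d x = 2 ∨ tyO s.d x = 1 then 1 else 0) =
      (if tyO s.d x = 3 then 1 else 0) - (if tyO s.d x = 1 then 1 else 0) := by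
    intro x
    rcases tyO_cases ht x with h | h | h | h <;> rw [h.1, h.2.1] <;> simp
  have h1 : ((SSp s.d (rr (SW s S₀) p)).card : ℤ) - ((PPc s.d (rr (SW s S₀) p)).card : ℤ) =
      ∑ i : SW s S₀ ⊕ ι, ((if tyO s.d (rr (SW s S₀) p i) = 3 then (1 : ℤ) else 0) -
        (if tyO s.d (rr (SW s S₀) p i) = 1 then 1 else 0)) := by
    unfold SSp PPc
    rw [card_filter, card_filter]
    push_cast
    rw [← sum_sub_distrib]
    exact sum_congr rfl fun i _ => key _
  have h3 : ∑ u : SW s S₀, ((if tyO s.d (rr (SW s S₀) p (Sum.inl u)) = 3 then (1 : ℤ) else 0) -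
        (if tyO s.d (rr (SW s S₀) p (Sum.inl u)) = 1 then 1 else 0)) = kd s.d.f S₀ + kW s := by
    have e1 := sum_SW (M := ℤ) hdis fun v => ((if tyO s.d v = 3 then (1 : ℤ) else 0) -
        (if tyO s.d v = 1 then 1 else 0))
    refine e1.trans ?_
    unfold kd kW
    rw [card_filter, card_filter, card_filter, card_filter]
    push_cast
    rw [← sum_sub_distrib, ← sum_sub_distrib]
    rfl
  have h4 : ∑ i : ι, ((if tyO s.d (rr (SW s S₀) p (Sum.inr i)) = 3 then (1 : ℤ) else 0) -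
        (if tyO s.d (rr (SW s S₀) p (Sum.inr i)) = 1 then 1 else 0)) =
        ((univ.filter fun i => τ s.d.f i = 3).card : ℤ) -
          ((univ.filter fun i => τ s.d.f i = 1).card : ℤ) := by
    rw [card_filter, card_filter]
    push_cast
    rw [← sum_sub_distrib]
    refine sum_congr rfl fun i _ => ?_
    have : tyO s.d (rr (SW s S₀) p (Sum.inr i)) = τ s.d.f i := hτ s.d.f i
    rw [this]
  rw [Fintype.sum_sum_type, h3, h4] at h1
  omega

theorem mem_PPc {d : Dt} {T : Finset (Option ℕ)} {γ : ι → Lb T} (h₀ : TP τ d T γ p₀) (k : ι) :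
    Sum.inr k ∈ PPc d (rr T p₀) ↔ k ∈ PQ (τ d.f) := by
  unfold PPc PQ
  rw [mem_filter, mem_filter]
  have h1 : tyO d (rr T p₀ (Sum.inr k)) = τ d.f k := h₀.ty d.f k
  rw [h1]
  simp

/-- the two types of a prime have the same parity -/
theorem ty_par (q : ℕ) : (ty false q = 0 ∨ ty false q = 2) ↔ (ty true q = 0 ∨ ty true q = 2) := by
  rcases ty_cases false q with h | h | h | h <;> rcases ty_cases true q with h' | h' | h' | h' <;>
    rw [h.1, h'.1] <;> simp <;> (have := h.2.2.symm.trans h'.2.2; revert this; decide)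

/-- the hypotheses for the general position -/
theorem gh {n : ℕ} {x : Fin t → Fin n → ZMod 2} {fr : Fin n → Bool} {JR : Fin n → Finset ι}
    {JS : Finset ι} {Q e : ℕ}
    (hdis : ∀ l, ∀ v ∈ S₀, some v ∉ (s l).W) (hp₀ : ∀ f i, ty f (p₀ i) = τ f i)
    (h₀ : ∀ l, TP τ (s l).d (SW (s l) S₀) (β l) p₀)
    (hβ : ∀ l, LN (SW (s l) S₀) (τ (s l).d.f) (β l))
    (hL : ∃ i, τ false i = 0 ∧ τ true i = 0)
    (hJR : ∀ r, ∀ i ∈ JR r, τ (fr r) i = 2 ∧ ∀ l l', (s l).d.f = fr r → (s l').d.f = fr r →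
      dg (s l) (p₀ i) + x l r = dg (s l') (p₀ i) + x l' r)
    (sep : ∀ l l' : Fin t, l ≠ l' → (s l).d.f = (s l').d.f →
      ∃ r, fr r = (s l).d.f ∧ x l r ≠ x l' r) (hQ : ∀ r, Q ≤ (JR r).card)
    (hJS : ∀ i ∈ JS, τ false i = 2 ∧ τ true i = 0) (hQS : Q + e ≤ JS.card)
    (he : ∀ l, (JK (τ (s l).d.f)).card ≤ (PQ (τ (s l).d.f)).card + e) :
    GhX (fun l => (s l).d.f) (fun f => JK (τ f)) (fun f => PQ (τ f))
      (fun l => SSp (s l).d (rr (SW (s l) S₀) p₀))
      (fun l => PPc (s l).d (rr (SW (s l) S₀) p₀)) (fun l => NN (s l).d (rr (SW (s l) S₀) p₀))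
      (fun l i => bO (s l).d (rr (SW (s l) S₀) p₀ i)) (fun k k' => nr (p₀ k') (p₀ k)) fr x JR JS
      Q e := by
  refine ⟨fun l k => mem_SSp (h₀ l) k, fun l k => mem_PPc (h₀ l) k, fun l k k' => rfl, ?_, ?_, ?_,
    ?_, sep, hQ, he, ?_, hQS⟩
  · intro l w hw
    obtain ⟨i, hi, hi2⟩ := hβ l w hw
    refine ⟨i, ?_, ?_⟩
    · unfold PQ
      exact mem_filter.2 ⟨mem_univ _, Or.inl hi⟩
    · intro h0
      apply hi2
      refine Eq.trans ?_ h0
      refine sum_congr rfl fun v' _ => ?_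
      rw [← (h₀ l).lab i]
      rfl
  · obtain ⟨o, ho1, ho2⟩ := hL
    refine ⟨o, fun f => ?_⟩
    have ho : τ f o = 0 := by
      cases f
      · exact ho1
      · exact ho2
    constructor
    · unfold JK
      rw [mem_filter]
      omega
    · unfold PQ
      rw [mem_filter]
      omega
  · intro k
    have key : ∀ f, (k ∈ JK (τ f) ↔ k ∈ PQ (τ f)) ↔ (ty f (p₀ k) = 0 ∨ ty f (p₀ k) = 2) := by
      intro f
      unfold JK PQ
      rw [mem_filter, mem_filter, ← hp₀ f k]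
      have h1 := ty_lt f (p₀ k)
      simp only [mem_univ, true_and]
      omega
    rw [key false, key true]
    exact ty_par _
  · intro r j hj
    obtain ⟨h1, h2⟩ := hJR r j hj
    refine ⟨?_, ?_, ?_⟩
    · unfold JK
      exact mem_filter.2 ⟨mem_univ _, Or.inl h1⟩
    · unfold PQ
      exact mem_filter.2 ⟨mem_univ _, Or.inl h1⟩
    · have key : ∀ l, tau (fun l => NN (s l).d (rr (SW (s l) S₀) p₀))
          (fun l i => bO (s l).d (rr (SW (s l) S₀) p₀ i)) l j =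
          dg (s l) (p₀ j) + ∑ u ∈ S₀, nr u (p₀ j) := by
        intro l
        unfold tau dg
        have e1 : ∑ v, (fun l => NN (s l).d (rr (SW (s l) S₀) p₀)) l (Sum.inr j) (Sum.inl v) =
            ∑ u ∈ S₀, nr u (p₀ j) + ∑ v ∈ (s l).W, nO (s l).d v (some (p₀ j)) :=
          sum_SW (M := ZMod 2) (hdis l) fun v => nO (s l).d v (some (p₀ j))
        rw [e1]
        show (s l).d.b (p₀ j) + _ = _
        ring
      intro l l' hl hl'
      rw [key l, key l']
      have h3 := h2 l l' hl hl'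
      have : ∀ a b c d e : ZMod 2, a + b = c + d → a + e + b = c + e + d := by decide
      exact this _ _ _ _ _ h3
  · intro j hj
    obtain ⟨h1, h2⟩ := hJS j hj
    constructor
    · unfold JK
      exact mem_filter.2 ⟨mem_univ _, Or.inl h1⟩
    · unfold JK
      rw [mem_filter]
      omega

/-- the average over the free symbols -/
theorem avgx (hALT : S_ALT) {m : Fin t → ℕ} {mm V : ℕ} (hmm : ∀ l, m l ≤ mm)
    (ht : ∀ l, (s l).d.t < 4) (hA : ∀ l, RecA (s l).d.f (s l).d.A)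
    (hS₀ : ∀ l, ∀ v ∈ SW (s l) S₀, PrO (s l).d.f v)
    (h₀ : ∀ l, TP τ (s l).d (SW (s l) S₀) (β l) p₀)
    (hβ : ∀ l, LN (SW (s l) S₀) (τ (s l).d.f) (β l))
    (hkd : ∀ l, Kc (s l).d (SW (s l) S₀) τ (m l)) (hV : 1 ≤ V)
    (hL : 6 * mm + 3 * V ≤ (univ.filter fun i => τ false i = 0 ∧ τ true i = 0).card)
    (hp : ∀ l, TP τ (s l).d (SW (s l) S₀) (β l) p) (pat : Fin t → Bool) :
    |∑ ε : ↥(JKX τ ×ˢ LCX τ) → ZMod 2, ffj (JKX τ) (fun l => SSp (s l).d (rr (SW (s l) S₀) p₀))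
      (fun l => PPc (s l).d (rr (SW (s l) S₀) p₀))
      (fun l => EE (s l).d (rr (SW (s l) S₀) (hat τ p₀ p)))
      (fun l i => bO (s l).d (rr (SW (s l) S₀) p₀ i)) m pat
      (fun l => pt (MM (s l).d τ (SW (s l) S₀) (hat τ p₀ p)) (xe ε))| ≤
      t * (1 / 2 : ℝ) ^ V * 2 ^ Fintype.card ↥(JKX τ ×ˢ LCX τ) := by
  have hL1 : ∃ i, τ false i = 0 ∧ τ true i = 0 := by
    have h1 : 0 < (univ.filter fun i => τ false i = 0 ∧ τ true i = 0).card := by omega
    obtain ⟨i, hi⟩ := card_pos.1 h1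
    exact ⟨i, (mem_filter.1 hi).2⟩
  have hL2 : ∀ f, ∃ i, τ f i = 0 := by
    obtain ⟨i, h1, h2⟩ := hL1
    intro f
    refine ⟨i, ?_⟩
    cases f
    · exact h1
    · exact h2
  have hH : ∀ l, Hyp (JK (τ (s l).d.f)) (SSp (s l).d (rr (SW (s l) S₀) p₀))
      (PPc (s l).d (rr (SW (s l) S₀) p₀))
      (fun i => uO (s l).d (rr (SW (s l) S₀) (hat τ p₀ p) i))
      (NN (s l).d (rr (SW (s l) S₀) (hat τ p₀ p)))
      (EE (s l).d (rr (SW (s l) S₀) (hat τ p₀ p))) (m l) := by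
    intro l
    have hh := hat_TP (h₀ l) (hp l)
    have H := hyp (ht l) (hA l) (hS₀ l) hh (hβ l) (hkd l) (hL2 _)
    have hty : ∀ i, ty (s l).d.f (hat τ p₀ p i) = ty (s l).d.f (p₀ i) := fun i =>
      (hh.ty _ i).trans ((h₀ l).ty _ i).symm
    rw [SSp_eq hty, PPc_eq hty] at H
    exact H
  have h1 := la2 (Sp := fun l => SSp (s l).d (rr (SW (s l) S₀) p₀))
    (Pc := fun l => PPc (s l).d (rr (SW (s l) S₀) p₀)) (Jk := JKX τ) (Lc := LCX τ)
    (N := fun l => MM (s l).d τ (SW (s l) S₀) (hat τ p₀ p))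
    (E := fun l => EE (s l).d (rr (SW (s l) S₀) (hat τ p₀ p)))
    (b := fun l i => bO (s l).d (rr (SW (s l) S₀) p₀ i)) (m := m) (pat := pat)
    (q := 2 * mm + V) hALT hmm (by
      intro l k hk h
      have hl0 : τ false k = 0 ∧ τ true k = 0 := by
        unfold LCX at hk
        exact (mem_filter.1 hk).2
      have h2 := (mem_PPc (h₀ l) k).1 h
      unfold PQ at h2
      have h3 := (mem_filter.1 h2).2
      have h4 : τ (s l).d.f k = 0 := by
        cases (s l).d.f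
        · exact hl0.1
        · exact hl0.2
      omega) (fun l => (hH l).es) (fun l => (hH l).e0) (fun l => (hH l).card) (by
      have h2 : (LCX τ).card = (univ.filter fun i => τ false i = 0 ∧ τ true i = 0).card := rfl
      rw [h2]
      omega)
  refine le_of_mul_le_mul_right (h1.trans (le_of_eq ?_))
    (by positivity : (0 : ℝ) < 2 ^ (2 * mm + V))
  have h3 : (1 / 2 : ℝ) ^ V * 2 ^ V = 1 := by
    rw [← mul_pow]
    norm_num
  rw [pow_add]
  calc (t : ℝ) * 2 ^ (2 * mm) * 2 ^ Fintype.card ↥(JKX τ ×ˢ LCX τ) =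
      ((1 / 2 : ℝ) ^ V * 2 ^ V) * (t * 2 ^ (2 * mm) * 2 ^ Fintype.card ↥(JKX τ ×ˢ LCX τ)) := by
        rw [h3, one_mul]
    _ = _ := by ring

end

end Pool.Agent.L0h59.XF
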