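import Pool.Agent.L0h59.XF.BXC
import Pool.Agent.L0h86.XF.StmB

/-!
# Project XF (helper59): the joint law in a box (after `Pool/Agent/L0h2/P/BX3.lean`)
-/

set_option autoImplicit false
set_option linter.unusedSectionVars false
set_option linter.unusedVariables false
set_option maxHeartbeats 4000000

open scoped Classical

namespace Pool.Agent.L0h59.XF

open Finset
open Pool.Agent.Y703.CQ (nr sg c2 S_C2)
open Pool.Agent.N973.ND (S_ALT t_ALT)
open Pool.Agent.N916.GB (HB)
open Pool.Agent.N958.GB (sgm HB_sub)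
open Pool.Agent.L0h1.KD (JK)
open Pool.Agent.L0h2.P (Kg PQ)
open Pool.Agent.L0h86.XF (mF ty PrF Dt tyO mO uO nO eO bO PrO RecA GRO GdO Sy SW GdS kd kW dg NdJ PatS
  amc S_BXX)

section
variable {t : ℕ} {s : Fin t → Sy} {ι : Type} [Fintype ι] [LinearOrder ι] {S₀ : Finset ℕ}
  {τ : Bool → ι → ℕ} {C : ι → Finset ℕ}

/-- the joint label -/
abbrev LbJ {t : ℕ} (s : Fin t → Sy) (S₀ : Finset ℕ) : Type := ∀ l, Lb (SW (s l) S₀)

/-- the joint label of a prime -/
noncomputable def lbj (s : Fin t → Sy) (S₀ : Finset ℕ) (q : ℕ) : LbJ s S₀ :=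
  fun l => lb (s l).d (SW (s l) S₀) q

theorem ndj_iff {p : ι → ℕ} (hτ : ∀ f i, ty f (p i) = τ f i) :
    NdJ s S₀ (univ.image p) ↔ ∀ l, LN (SW (s l) S₀) (τ (s l).d.f) (fun i => lbj s S₀ (p i) l) := by
  have key : ∀ (l : Fin t) (w : Option ℕ → ZMod 2) (i : ι),
      ∑ v ∈ SW (s l) S₀, w v * nO (s l).d (some (p i)) v =
        ∑ v : SW (s l) S₀, w v * (lbj s S₀ (p i) l).1 v := by
    intro l w i
    rw [← Finset.sum_coe_sort (SW (s l) S₀)]
    rfl
  unfold NdJ LN
  refine forall_congr' fun l => ?_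
  constructor
  · intro h w hw
    set w' : Option ℕ → ZMod 2 := fun x => if h : x ∈ SW (s l) S₀ then w ⟨x, h⟩ else 0 with hw'
    have hw1 : ∀ v : SW (s l) S₀, w' v = w v := fun v => by
      rw [hw']
      exact dif_pos v.2
    obtain ⟨x, hx, hx2, hx3⟩ := h w' (by
      obtain ⟨v, hv⟩ := hw
      exact ⟨v, v.2, by rw [hw1]; exact hv⟩)
    obtain ⟨i, -, rfl⟩ := mem_image.1 hx
    refine ⟨i, by rw [← hτ _ i, hx2], ?_⟩
    rw [key] at hx3
    simp only [hw1] at hx3
    exact hx3
  · intro h w hw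
    obtain ⟨v, hv, hv2⟩ := hw
    obtain ⟨i, hi, hi2⟩ := h (fun v => w v) ⟨⟨v, hv⟩, hv2⟩
    refine ⟨p i, mem_image_of_mem _ (mem_univ _), by rw [hτ _ i, hi], ?_⟩
    rw [key]
    exact hi2

/-- the number of the labels -/
theorem card_LbJ (s : Fin t → Sy) (S₀ : Finset ℕ) :
    Fintype.card (LbJ s S₀) = 2 ^ (∑ l, (2 * (SW (s l) S₀).card + 1)) := by
  rw [Fintype.card_pi, ← prod_pow_eq_pow_sum]
  refine prod_congr rfl fun l _ => ?_
  rw [Fintype.card_prod, Fintype.card_prod, Fintype.card_fun, ZMod.card, Fintype.card_coe]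
  rw [pow_succ, two_mul, pow_add]
  ring

/-- **The joint law in a box.** -/
theorem t_BXX : S_BXX := by
  intro t n s ι _ _ S₀ τ C x fr JR JS X κ m mm V Q e pat hmm hV hVm ht hA hκ hCX hHB hW hS₀ hdis hC
    hCd hkd hL hJR sep hQ hJS hQS he hQ2
  have hALT := t_ALT Pool.Agent.Y839.CQ.t_SYM
  have hC2 := Pool.Agent.Y948.CQ.t_C2
  have hS : ∀ l, ∀ v ∈ SW (s l) S₀, PrO (s l).d.f v := by
    intro l v hv
    unfold SW at hv
    rw [mem_union, mem_image] at hv
    rcases hv with ⟨a, ha, rfl⟩ | hv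
    · exact hS₀ l a ha
    · have := hW l v hv
      rcases v with _ | v
      · exact trivial
      · exact this
  have hkc : ∀ l, Kc (s l).d (SW (s l) S₀) τ (m l) := fun l => card_spW (ht l) (hdis l) (hkd l)
  have he' : ∀ l, (JK (τ (s l).d.f)).card ≤ (PQ (τ (s l).d.f)).card + e := by
    intro l
    have e1 : (JK (τ (s l).d.f)).card = (univ.filter fun i => τ (s l).d.f i = 2).card +
        (univ.filter fun i => τ (s l).d.f i = 3).card := by
      unfold JK
      rw [filter_or, card_union_of_disjoint]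
      rw [disjoint_filter]
      intro i _ h1 h2
      omega
    have e2 : (PQ (τ (s l).d.f)).card = (univ.filter fun i => τ (s l).d.f i = 2).card +
        (univ.filter fun i => τ (s l).d.f i = 1).card := by
      unfold PQ
      rw [filter_or, card_union_of_disjoint]
      rw [disjoint_filter]
      intro i _ h1 h2
      omega
    rw [e1, e2]
    have := he l
    omega
  set R : ℝ := 2 ^ (Pool.Agent.N916.GB.ps ι).card * (κ * ∏ j, (X j : ℝ)) with hR
  have hR0 : 0 ≤ R := mul_nonneg (by positivity)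
    (mul_nonneg hκ (Finset.prod_nonneg fun j _ => by positivity))
  have hinj : ∀ p ∈ Fintype.piFinset C, Function.Injective p := by
    intro p hp i j hij
    rw [Fintype.mem_piFinset] at hp
    by_contra hne
    have h1 := Finset.disjoint_left.1 (hCd i j hne) (hp i)
    rw [hij] at h1
    exact h1 (hp j)
  have hτ : ∀ p ∈ Fintype.piFinset C, ∀ f i, ty f (p i) = τ f i := by
    intro p hp f i
    rw [Fintype.mem_piFinset] at hp
    exact (hC i _ (hp i)).2.2.2 f
  -- the part with given labels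
  have h1 : ∀ β : ι → LbJ s S₀, (∀ l, LN (SW (s l) S₀) (τ (s l).d.f) (fun i => β i l)) →
      |(((Fintype.piFinset C).filter fun p => (fun i => lbj s S₀ (p i)) = β ∧
          PatS s pat (S₀ ∪ univ.image p)).card : ℝ) -
        amc pat * (((Fintype.piFinset C).filter fun p =>
          (fun i => lbj s S₀ (p i)) = β).card : ℝ)| ≤
      (4 * t + 2) * (1 / 2 : ℝ) ^ V *
        (((Fintype.piFinset C).filter fun p => (fun i => lbj s S₀ (p i)) = β).card : ℝ) + 2 * R := by
    intro β hβ
    set C' : ι → Finset ℕ := fun i => (C i).filter fun q => lbj s S₀ q = β i with hC'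
    have hpi : (Fintype.piFinset C).filter (fun p => (fun i => lbj s S₀ (p i)) = β) =
        Fintype.piFinset C' := by
      ext p
      simp only [Finset.mem_filter, Fintype.mem_piFinset, hC']
      constructor
      · rintro ⟨h2, h3⟩ i
        exact ⟨h2 i, congrFun h3 i⟩
      · intro h2
        exact ⟨fun i => (h2 i).1, funext fun i => (h2 i).2⟩
    rw [← Finset.filter_filter, hpi]
    refine labj (β := fun l i => β i l) hALT hC2 hmm hV hVm ht hA hκ
      (fun i => (Finset.card_le_card (Finset.filter_subset _ _)).trans (hCX i))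
      (HB_sub hHB fun i q => lbj s S₀ q = β i) hS hdis ?_ hβ hkc hL
      (fun r i hi => ⟨(hJR r i hi).1, fun q hq => (hJR r i hi).2 q (mem_filter.1 hq).1⟩)
      sep hQ hJS hQS he' (fun i q hq f => (hC i q (mem_filter.1 hq).1).2.2.2 f) hQ2 pat
    intro p hp l
    have hp' : p ∈ Fintype.piFinset C := by
      rw [Fintype.mem_piFinset] at hp ⊢
      exact fun i => (mem_filter.1 (hp i)).1
    refine ⟨hinj p hp', fun i => ?_, fun i => ?_, hτ p hp', fun i => ?_⟩
    · rw [Fintype.mem_piFinset] at hp'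
      exact (hC i _ (hp' i)).1 _
    · rw [Fintype.mem_piFinset] at hp'
      intro h
      unfold SW at h
      rw [mem_union, mem_image] at h
      rcases h with ⟨a, ha, h⟩ | h
      · rw [Option.some_injective _ h] at ha
        exact (hC i _ (hp' i)).2.1 ha
      · exact (hC i _ (hp' i)).2.2.1 l h
    · rw [Fintype.mem_piFinset] at hp
      exact congrFun (mem_filter.1 (hp i)).2 l
  -- sum over the labels
  set LL := univ.filter (fun β : ι → LbJ s S₀ => ∀ l, LN (SW (s l) S₀) (τ (s l).d.f) (fun i => β i l)) with hLL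
  have hfib : ∀ T : (ι → ℕ) → Prop,
      (((Fintype.piFinset C).filter fun p => NdJ s S₀ (univ.image p) ∧ T p).card : ℝ) =
      ∑ β ∈ LL, (((Fintype.piFinset C).filter fun p =>
        (fun i => lbj s S₀ (p i)) = β ∧ T p).card : ℝ) := by
    intro T
    rw [Finset.card_eq_sum_card_fiberwise (f := fun (p : ι → ℕ) (i : ι) => lbj s S₀ (p i))
      (t := LL) (by
        intro p hp
        rw [Finset.mem_coe, Finset.mem_filter] at hp
        rw [Finset.mem_coe, hLL, Finset.mem_filter]
        exact ⟨Finset.mem_univ _, (ndj_iff (hτ p hp.1)).1 hp.2.1⟩)]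
    push_cast
    refine Finset.sum_congr rfl fun β hβ => ?_
    rw [hLL, Finset.mem_filter] at hβ
    congr 2
    ext p
    simp only [Finset.mem_filter]
    constructor
    · rintro ⟨⟨h3, h4, h4'⟩, h5⟩
      exact ⟨h3, h5, h4'⟩
    · rintro ⟨h3, h4, h5⟩
      refine ⟨⟨h3, ?_, h5⟩, h4⟩
      rw [ndj_iff (hτ p h3)]
      intro l
      have h6 : (fun i => lbj s S₀ (p i) l) = fun i => β i l := by
        funext i
        exact congrFun (congrFun h4 i) l
      rw [h6]
      exact hβ.2 l
  have hf1 := hfib fun p => PatS s pat (S₀ ∪ univ.image p)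
  have hf2 := hfib fun _ => True
  simp only [and_true] at hf2
  rw [hf1, hf2, Finset.mul_sum, ← Finset.sum_sub_distrib]
  refine (Finset.abs_sum_le_sum_abs _ _).trans ?_
  refine (Finset.sum_le_sum fun β hβ => h1 β (Finset.mem_filter.1 hβ).2).trans ?_
  rw [Finset.sum_add_distrib, ← Finset.mul_sum, Finset.sum_const, nsmul_eq_mul]
  have h5 : ((LL.card : ℕ) : ℝ) ≤ 2 ^ ((∑ l, (2 * (SW (s l) S₀).card + 1)) * Fintype.card ι) := by
    have h6 : LL.card ≤ Fintype.card (ι → LbJ s S₀) := Finset.card_le_univ _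
    rw [Fintype.card_fun, card_LbJ, ← pow_mul] at h6
    exact_mod_cast h6
  have h6 := mul_le_mul_of_nonneg_right h5 (mul_nonneg (by norm_num : (0 : ℝ) ≤ 2) hR0)
  have h7 : (2 : ℝ) * 2 ^ ((∑ l, (2 * (SW (s l) S₀).card + 1)) * Fintype.card ι +
      (Pool.Agent.N916.GB.ps ι).card) * (κ * ∏ j, (X j : ℝ)) =
      2 ^ ((∑ l, (2 * (SW (s l) S₀).card + 1)) * Fintype.card ι) * (2 * R) := by
    rw [hR, pow_add]
    ring
  rw [h7]
  linarith

end

end Pool.Agent.L0h59.XF
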